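import Pool.Agent.H67.DerLen

/-! In `PGL(2,7)` (acting on 8 points) the solubilizer of an element of order 8 is `D₁₆`. -/

namespace Pool.Agent.Results.MP_7555fa_al.Counter

open Pool.Agent.H67.DerLen
open scoped commutatorElement

/-- left-normed commutator `[a₁,…,a_k]` with `[a,b] = a⁻¹b⁻¹ab` -/
def lc {G : Type} [Group G] : List G → G
  | [] => 1
  | a :: l => l.foldl (fun u v => u⁻¹ * v⁻¹ * u * v) a

/-- the solubilizer -/
def Sol {G : Type} [Group G] (x : G) : Set G := {y | Group.IsSolvable (Subgroup.closure {x, y})}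

/-- `γ_k(G)` -/
def gam (G : Type) [Group G] (k : ℕ) : Subgroup G :=
  Subgroup.closure {g | ∃ l : List G, l.length = k ∧ lc l = g}

abbrev P := Equiv.Perm (Fin 8)

def X (i : Fin 8) : P := Equiv.addRight i

def inv (f : Fin 8 → Fin 8) (h : ∀ i, f (f i) = i) : P := ⟨f, f, h, h⟩

def R : Fin 7 → P := ![1, inv ![0, 7, 6, 5, 4, 3, 2, 1] (by decide),
  inv ![0, 1, 4, 6, 2, 7, 3, 5] (by decide), inv ![0, 2, 1, 7, 5, 4, 6, 3] (by decide),
  inv ![0, 4, 7, 3, 1, 6, 5, 2] (by decide), inv ![1, 0, 3, 2, 6, 7, 4, 5] (by decide),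
  inv ![2, 5, 0, 6, 7, 1, 3, 4] (by decide)]

def x : P := X 1
def z : P := R 2

def tab : Fin 7 → Fin 8 → Fin 8 × Fin 7 × Fin 8 :=
  ![![(0, 2, 0), (0, 2, 1), (0, 2, 2), (0, 2, 3), (0, 2, 4), (0, 2, 5), (0, 2, 6), (0, 2, 7)],
    ![(3, 4, 6), (3, 4, 5), (3, 4, 4), (3, 4, 3), (3, 4, 2), (3, 4, 1), (3, 4, 0), (3, 4, 7)],
    ![(0, 0, 0), (7, 6, 0), (0, 3, 5), (6, 4, 0), (3, 5, 5), (0, 4, 2), (3, 3, 0), (0, 6, 1)],
    ![(2, 2, 3), (4, 4, 6), (2, 4, 7), (6, 2, 0), (6, 5, 6), (6, 3, 2), (5, 3, 6), (0, 5, 7)],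
    ![(5, 2, 6), (1, 6, 2), (2, 3, 1), (6, 1, 0), (1, 3, 2), (6, 6, 5), (3, 2, 0), (7, 5, 4)],
    ![(7, 3, 1), (5, 5, 5), (2, 6, 7), (4, 2, 3), (5, 6, 0), (1, 5, 3), (4, 3, 2), (7, 4, 4)],
    ![(7, 2, 7), (1, 4, 6), (2, 5, 1), (4, 6, 6), (3, 6, 2), (4, 5, 0), (5, 4, 3), (1, 2, 0)]]

theorem htab : ∀ m i, z * (X i * R m) = X (tab m i).1 * R (tab m i).2.1 * X (tab m i).2.2 := by
  decide +kernel

theorem X_mul : ∀ i j, X i * X j = X (i + j) := by decide +kernel

theorem X_pow : ∀ i, X i = x ^ i.val := by decide +kernel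

def K : Subgroup P := Subgroup.closure {x, z}

theorem memK (g : P) (hg : g ∈ K) : ∃ i m j, g = X i * R m * X j := by
  have : g ∈ Submonoid.closure ({x, z} : Set P) := by
    rw [← Subgroup.closure_toSubmonoid_of_finite]; exact hg
  induction this using Submonoid.closure_induction_left with
  | one => exact ⟨0, 0, 0, by decide +kernel⟩
  | mul_left a ha b hb ih =>
    obtain ⟨i, m, j, rfl⟩ := ih (Subgroup.le_closure_toSubmonoid _ hb)
    rcases ha with rfl | rfl
    · exact ⟨1 + i, m, j, by rw [← X_mul, x]; simp only [mul_assoc]⟩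
    · exact ⟨_, _, _, by rw [← mul_assoc, htab, mul_assoc, X_mul]⟩

theorem notsolv (H : Subgroup P) (hx : x ∈ H) (hz : z ∈ H) : ¬ Group.IsSolvable H := by
  rintro ⟨n, hn⟩
  rw [der_iff] at hn
  have key : ∀ n, z * x ∈ D H n ∧ x * x ∈ D H n := by
    intro n
    induction n with
    | zero => exact ⟨H.mul_mem hz hx, H.mul_mem hx hx⟩
    | succ n ih =>
      have e1 : z * x = ⁅(z * x) * (x * x) * (z * x), (z * x) * (x * x)⁆ := by decide +kernel
      have e2 : x * x = ⁅(z * x) * (x * x) * (x * x), (z * x) * (x * x)⁆ := by decide +kernel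
      have h := mul_mem ih.1 ih.2
      exact ⟨e1 ▸ Subgroup.commutator_mem_commutator (mul_mem h ih.1) h,
        e2 ▸ Subgroup.commutator_mem_commutator (mul_mem h ih.2) h⟩
  have := (key n).2
  rw [hn, Subgroup.mem_bot] at this
  exact absurd this (by decide +kernel)

theorem zin (H : Subgroup P) (hx : x ∈ H) (m : Fin 7) (hr : R m ∈ H) :
    m = 0 ∨ m = 1 ∨ z ∈ H := by
  have hw : ∀ l : List Bool, (l.map fun b => if b then R m else x).prod ∈ H := fun l =>
    H.list_prod_mem fun g hg => by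
      obtain ⟨b, -, rfl⟩ := List.mem_map.1 hg
      split_ifs <;> assumption
  have : ∀ m : Fin 7, m = 0 ∨ m = 1 ∨ ∃ l ∈ [[true],
      [true, false, false, false, true, false, false, true, false],
      [false, true, false, true, false, true, false, false, false],
      [false, true, false, false, false, true, false, false, false],
      [false, false, true, false, false, true, false, false, false, true]],
      (l.map fun b => if b then R m else x).prod = z := by decide +kernel
  rcases this m with h | h | ⟨l, -, h⟩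
  exacts [Or.inl h, Or.inr (Or.inl h), Or.inr (Or.inr (h ▸ hw l))]

def Dh (g : P) : Prop := ∃ i : Fin 8, g = X i ∨ g = X i * R 1

def xK : K := ⟨x, Subgroup.subset_closure (by simp)⟩
def zK : K := ⟨z, Subgroup.subset_closure (by simp)⟩

theorem sol (y : K) (hy : y ∈ Sol xK) : Dh y := by
  obtain ⟨i, m, j, h⟩ := memK y y.2
  let H := (Subgroup.closure {xK, y}).map K.subtype
  have hs : Group.IsSolvable H := by
    haveI : Group.IsSolvable (Subgroup.closure {xK, y}) := hy
    exact solvable_of_surjective (f := K.subtype.subgroupMap _)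
      (MonoidHom.subgroupMap_surjective _ _)
  have hx : x ∈ H := ⟨xK, Subgroup.subset_closure (by simp), rfl⟩
  have hy : (y : P) ∈ H := ⟨y, Subgroup.subset_closure (by simp), rfl⟩
  have hX : ∀ i, X i ∈ H := fun i => X_pow i ▸ H.pow_mem hx _
  rw [h, H.mul_mem_cancel_right (hX j), H.mul_mem_cancel_left (hX i)] at hy
  rw [h]
  clear h
  rcases zin H hx m hy with rfl | rfl | hz
  · exact ⟨i + j, Or.inl (by clear hy; revert i j; decide +kernel)⟩
  · exact ⟨i - j, Or.inr (by clear hy; revert i j; decide +kernel)⟩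
  · exact absurd hs (notsolv H hx hz)

theorem c1 (u v : P) (hu : Dh u) (hv : Dh v) : ∃ i, u⁻¹ * v⁻¹ * u * v = X (2 * i) := by
  obtain ⟨i, rfl | rfl⟩ := hu <;> obtain ⟨j, rfl | rfl⟩ := hv <;> revert i j <;> decide +kernel

theorem c2 (i : Fin 8) (v : P) (hv : Dh v) :
    ∃ k, (X (2 * i))⁻¹ * v⁻¹ * X (2 * i) * v = X (4 * k) := by
  obtain ⟨j, rfl | rfl⟩ := hv <;> revert i j <;> decide +kernel

theorem c3 (i : Fin 8) (v : P) (hv : Dh v) : (X (4 * i))⁻¹ * v⁻¹ * X (4 * i) * v = 1 := by
  obtain ⟨j, rfl | rfl⟩ := hv <;> revert i j <;> decide +kernel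

theorem result (k : ℕ) (hk : 4 ≤ k) : ∃ (G : Type) (_ : Group G) (_ : Finite G) (x : G),
    (∀ l : List G, l.length = k → (∀ u ∈ l, u ∈ Sol x) → lc l = 1) ∧ gam G k ≠ ⊥ := by
  refine ⟨K, inferInstance, inferInstance, xK, fun l hl h => ?_, fun h => ?_⟩
  · match l, hl, h with
    | [], hl, _ | [_], hl, _ | [_, _], hl, _ | [_, _, _], hl, _ => simp at hl; omega
    | a :: b :: c :: d :: l, hl, h =>
      obtain ⟨i, hi⟩ := c1 a b (sol a (h a (by simp))) (sol b (h b (by simp)))
      obtain ⟨j, hj⟩ := c2 i c (sol c (h c (by simp)))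
      have h3 := c3 j d (sol d (h d (by simp)))
      rw [← hj, ← hi] at h3
      have h4 : lc [a, b, c, d] = 1 := Subtype.ext h3
      simp only [lc, List.foldl] at h4 ⊢
      rw [h4]
      clear h hl
      induction l with
      | nil => rfl
      | cons e l ih => simpa using ih
  · let s : K := xK * zK * xK * xK
    let g : K := xK * xK * zK * xK * xK * zK
    have e : s⁻¹ * g⁻¹ * s * g = s := Subtype.ext (by
      change (x * z * x * x)⁻¹ * (x * x * z * x * x * z)⁻¹ * (x * z * x * x) *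
        (x * x * z * x * x * z) = x * z * x * x
      decide +kernel)
    have h1 : ∀ n, lc (s :: List.replicate n g) = s := by
      intro n
      induction n with
      | zero => rfl
      | succ n ih => simpa only [lc, List.replicate_succ, List.foldl, e] using ih
    have h2 : s ∈ gam K k :=
      Subgroup.subset_closure ⟨s :: List.replicate (k - 1) g, by simp; omega, h1 _⟩
    rw [h, Subgroup.mem_bot] at h2
    have h3 : x * z * x * x = 1 := congrArg Subtype.val h2
    exact absurd h3 (by decide +kernel)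

end Pool.Agent.Results.MP_7555fa_al.Counter
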